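import Mathlib
import Pool.Agent.H.MP_4d2320_co.helper58.Top

/-!
# The weighted Brouwer conjecture

The nonzero Laplacian eigenvalues of an edge-weighted graph are majorized by the vector `y(A)`;
Brouwer's conjecture for simple graphs.
-/

set_option autoImplicit false

namespace Pool.Agent.Results.MP_4d2320_co.Majorization

open Finset

/-- The Laplacian `L_A = D_A - A`. -/
def lap {n : ℕ} (A : Matrix (Fin n) (Fin n) ℝ) : Matrix (Fin n) (Fin n) ℝ :=
  Matrix.diagonal (fun i => ∑ j, A i j) - A

/-- The real roots of the characteristic polynomial, with multiplicity, in decreasing order. -/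
noncomputable def eigs {n : ℕ} (L : Matrix (Fin n) (Fin n) ℝ) : List ℝ :=
  L.charpoly.roots.sort (· ≥ ·)

/-- The entries `ω_ij`, `i < j`, with multiplicity, in decreasing order. -/
noncomputable def weights {n : ℕ} (A : Matrix (Fin n) (Fin n) ℝ) : List ℝ :=
  ((univ.filter (fun p : Fin n × Fin n => p.1 < p.2)).val.map (fun p => A p.1 p.2)).sort (· ≥ ·)

/-- The total weight `e(A)`. -/
def total {n : ℕ} (A : Matrix (Fin n) (Fin n) ℝ) : ℝ :=
  ∑ p ∈ univ.filter (fun p : Fin n × Fin n => p.1 < p.2), A p.1 p.2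

/-- `μ_i`, the `i`-th largest eigenvalue of `L_A`, for `i = 1, ..., n`. -/
noncomputable def mu {n : ℕ} (A : Matrix (Fin n) (Fin n) ℝ) (i : ℕ) : ℝ :=
  (eigs (lap A)).getD (i - 1) 0

/-- `ω_i`, the `i`-th largest weight, for `i = 1, ..., n(n-1)/2`. -/
noncomputable def omega {n : ℕ} (A : Matrix (Fin n) (Fin n) ℝ) (i : ℕ) : ℝ :=
  (weights A).getD (i - 1) 0

/-- The vector `y(A)`: `y_1 = e(A) + ω_1` and `y_k` is the sum of the `ω_i` with
`k(k-1)/2 < i ≤ k(k+1)/2` for `k ≥ 2`. -/
noncomputable def y {n : ℕ} (A : Matrix (Fin n) (Fin n) ℝ) (k : ℕ) : ℝ :=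
  if k = 1 then total A + omega A 1
  else ∑ i ∈ Icc (k.choose 2 + 1) ((k + 1).choose 2), omega A i

/-- Unordered majorization of `x_1, ..., x_m` by `z_1, ..., z_m`. -/
def Majorized (m : ℕ) (x z : ℕ → ℝ) : Prop :=
  (∀ k ∈ Icc 1 (m - 1), ∑ i ∈ Icc 1 k, x i ≤ ∑ i ∈ Icc 1 k, z i) ∧
    ∑ i ∈ Icc 1 m, x i = ∑ i ∈ Icc 1 m, z i

lemma y_sum {n : ℕ} (A : Matrix (Fin n) (Fin n) ℝ) (k : ℕ) (hk : 1 ≤ k) :
    ∑ i ∈ Icc 1 k, y A i = total A + ∑ i ∈ Icc 1 ((k + 1).choose 2), omega A i := by
  induction k, hk using Nat.le_induction with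
  | base => simp [y]
  | succ k hk ih =>
    rw [sum_Icc_succ_top (by omega), ih]
    have h1 : y A (k + 1) =
        ∑ i ∈ Icc ((k + 1).choose 2 + 1) ((k + 1 + 1).choose 2), omega A i := by
      unfold y
      rw [if_neg (by omega)]
    have h2 : (k + 1).choose 2 ≤ (k + 1 + 1).choose 2 := Nat.choose_le_choose 2 (by omega)
    rw [h1, add_assoc]
    congr 1
    have h3 : Icc 1 ((k + 1 + 1).choose 2) =
        Icc 1 ((k + 1).choose 2) ∪ Icc ((k + 1).choose 2 + 1) ((k + 1 + 1).choose 2) := by
      ext i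
      simp only [mem_union, mem_Icc]
      omega
    rw [h3, sum_union]
    rw [disjoint_left]
    intro i hi hj
    rw [mem_Icc] at hi hj
    omega

/-- The weighted conjecture, all partial sums, and Brouwer's conjecture. -/
theorem result :
    (∀ (n : ℕ) (A : Matrix (Fin n) (Fin n) ℝ), 2 ≤ n → A.IsSymm → (∀ i j, 0 ≤ A i j) →
      (∀ i, A i i = 0) →
        (eigs (lap A)).length = n ∧ (weights A).length = n.choose 2 ∧
        Majorized (n - 1) (mu A) (y A) ∧
        ∀ k : ℕ, k ≤ n →
          ∑ i ∈ Icc 1 k, mu A i ≤ total A + ∑ i ∈ Icc 1 ((k + 1).choose 2), omega A i) ∧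
    (∀ (n : ℕ) (G : SimpleGraph (Fin n)) [DecidableRel G.Adj],
      (eigs (G.lapMatrix ℝ)).length = n ∧ ∀ k : ℕ, k ≤ n →
        ((eigs (G.lapMatrix ℝ)).take k).sum ≤ G.edgeFinset.card + (k + 1).choose 2) := by
  have key : ∀ (n : ℕ) (A : Matrix (Fin n) (Fin n) ℝ), A.IsSymm → (∀ i j, 0 ≤ A i j) →
      (∀ i, A i i = 0) → ∀ k : ℕ, k ≤ n →
      ((eigs (lap A)).take k).sum ≤ total A + ((weights A).take ((k + 1).choose 2)).sum :=
    fun n A hA h0 hd k hk => Pool.Agent.H.MP_4d2320_co.helper58.top_le A hA h0 hd k hk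
  have hmu : ∀ (n : ℕ) (A : Matrix (Fin n) (Fin n) ℝ) (k : ℕ),
      ∑ i ∈ Icc 1 k, mu A i = ((eigs (lap A)).take k).sum :=
    fun n A k => Pool.Agent.H.MP_4d2320_co.helper58.sum_Icc_getD _ k
  have hom : ∀ (n : ℕ) (A : Matrix (Fin n) (Fin n) ℝ) (k : ℕ),
      ∑ i ∈ Icc 1 k, omega A i = ((weights A).take k).sum :=
    fun n A k => Pool.Agent.H.MP_4d2320_co.helper58.sum_Icc_getD _ k
  refine ⟨fun n A hn hA h0 hd => ?_, ?_⟩
  · have hlen : (eigs (lap A)).length = n := Pool.Agent.H.MP_4d2320_co.helper58.eigs_length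
      (Pool.Agent.H.MP_4d2320_co.helper58.lap_herm hA)
    have hwlen : (weights A).length = n.choose 2 :=
      Pool.Agent.H.MP_4d2320_co.helper58.weights_length A
    have hws : (weights A).sum = total A := Pool.Agent.H.MP_4d2320_co.helper58.weights_sum A
    have hall : ∀ k : ℕ, k ≤ n →
        ∑ i ∈ Icc 1 k, mu A i ≤ total A + ∑ i ∈ Icc 1 ((k + 1).choose 2), omega A i := by
      intro k hk
      rw [hmu, hom]
      exact key n A hA h0 hd k hk
    refine ⟨hlen, hwlen, ⟨fun k hk => ?_, ?_⟩, hall⟩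
    · rw [mem_Icc] at hk
      rw [y_sum A k hk.1]
      exact hall k (by omega)
    · -- the totals
      have h1 := hall (n - 1) (by omega)
      rw [y_sum A (n - 1) (by omega)]
      have hn1 : n - 1 + 1 = n := by omega
      rw [hn1] at h1 ⊢
      have h2 : ∑ i ∈ Icc 1 (n.choose 2), omega A i = total A := by
        rw [hom, List.take_of_length_le hwlen.le, hws]
      rw [h2] at h1 ⊢
      have h3 : ∑ i ∈ Icc 1 n, mu A i = 2 * total A := by
        rw [hmu, List.take_of_length_le hlen.le]
        have e1 : (eigs (lap A)).sum = ∑ i, lap A i i :=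
          Pool.Agent.H.MP_4d2320_co.helper58.eigs_sum
            (Pool.Agent.H.MP_4d2320_co.helper58.lap_herm hA)
        rw [e1]
        exact Pool.Agent.H.MP_4d2320_co.helper58.trace_lap A hA hd
      have h4 : ∑ i ∈ Icc 1 n, mu A i = ∑ i ∈ Icc 1 (n - 1), mu A i + mu A n := by
        have h6 : ∀ m : ℕ, 1 ≤ m →
            ∑ i ∈ Icc 1 m, mu A i = ∑ i ∈ Icc 1 (m - 1), mu A i + mu A m := by
          intro m hm
          obtain ⟨r, rfl⟩ : ∃ r, m = r + 1 := ⟨m - 1, by omega⟩
          rw [sum_Icc_succ_top (by omega), Nat.add_sub_cancel]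
        exact h6 n (by omega)
      have h5 : mu A n ≤ 0 :=
        Pool.Agent.H.MP_4d2320_co.helper58.last_nonpos (by omega) A hA
      linarith
  · intro n G _
    classical
    set A : Matrix (Fin n) (Fin n) ℝ := G.adjMatrix ℝ with hAdef
    have hA : A.IsSymm := G.isSymm_adjMatrix
    have h0 : ∀ i j, 0 ≤ A i j := by
      intro i j
      rw [hAdef, SimpleGraph.adjMatrix_apply]
      split_ifs <;> norm_num
    have h1' : ∀ i j, A i j ≤ 1 := by
      intro i j
      rw [hAdef, SimpleGraph.adjMatrix_apply]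
      split_ifs <;> norm_num
    have hd : ∀ i, A i i = 0 := by
      intro i
      rw [hAdef, SimpleGraph.adjMatrix_apply]
      simp
    have hlap : G.lapMatrix ℝ = lap A := by
      unfold SimpleGraph.lapMatrix SimpleGraph.degMatrix lap
      congr 2
      funext i
      rw [hAdef]
      simp [SimpleGraph.adjMatrix_apply, Finset.sum_boole, SimpleGraph.degree,
        SimpleGraph.neighborFinset_eq_filter]
    rw [hlap]
    refine ⟨Pool.Agent.H.MP_4d2320_co.helper58.eigs_length
      (Pool.Agent.H.MP_4d2320_co.helper58.lap_herm hA), fun k hk => ?_⟩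
    refine (key n A hA h0 hd k hk).trans ?_
    have ht : total A = G.edgeFinset.card := by
      have e1 : (2 : ℝ) * total A = ∑ i, ∑ j, A i j := by
        rw [Pool.Agent.H.MP_4d2320_co.helper58.sum_pairs' A (fun a b => hA.apply b a) hd]
        rfl
      have e2 : ∑ i, ∑ j, A i j = 2 * (G.edgeFinset.card : ℝ) := by
        have e3 : ∀ i, ∑ j, A i j = (G.degree i : ℝ) := by
          intro i
          rw [hAdef]
          simp [SimpleGraph.adjMatrix_apply, Finset.sum_boole, SimpleGraph.degree,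
            SimpleGraph.neighborFinset_eq_filter]
        simp only [e3]
        exact_mod_cast G.sum_degrees_eq_twice_card_edges
      linarith
    have hw : ((weights A).take ((k + 1).choose 2)).sum ≤ ((k + 1).choose 2 : ℕ) := by
      have h6 : ∀ (l : List ℝ), (∀ b ∈ l, b ≤ 1) → l.sum ≤ l.length := by
        intro l
        induction l with
        | nil => intro _; simp
        | cons a l ih =>
          intro h
          rw [List.sum_cons, List.length_cons]
          push_cast
          have := ih (fun b hb => h b (List.mem_cons_of_mem _ hb))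
          have := h a List.mem_cons_self
          linarith
      refine (h6 _ ?_).trans ?_
      · intro b hb
        have hb' := List.mem_of_mem_take hb
        unfold weights at hb'
        rw [Multiset.mem_sort, Multiset.mem_map] at hb'
        obtain ⟨p, -, rfl⟩ := hb'
        exact h1' _ _
      · rw [List.length_take]
        exact_mod_cast min_le_left _ _
    rw [ht]
    linarith

end Pool.Agent.Results.MP_4d2320_co.Majorization
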